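import Pool.Agent.AEC.StmtsB

/-!
# AEC, row EMB: embeddings in the categoricity cardinal
-/

open FirstOrder FirstOrder.Language Cardinal Set

universe u

namespace Pool.Agent.AEC.H62

theorem emb (siz : SizStmt.{u}) : EmbStmt.{u} := by
  intro L κ K E B hB l hl hc
  obtain ⟨N, f, hN⟩ := siz L κ K B hB l hl
  have hκ : κ ≤ l := le_trans (self_le_add_left κ #B.α) hl
  have hl0 : ℵ₀ ≤ l := K.aleph0_le.trans hκ
  have hT : #(E.obj l.ord.ToType).α = l := by
    apply le_antisymm
    · have h1 := E.card_le l.ord.ToType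
      rw [Cardinal.mk_ord_toType, Cardinal.add_eq_left hl0 hκ] at h1
      exact h1
    · have h1 := E.le_card l.ord.ToType
      rw [Cardinal.mk_ord_toType] at h1
      exact h1
  obtain ⟨e⟩ := hc.2 N (E.obj l.ord.ToType) hN hT
  exact ⟨(AEC.Hom.ofEquiv e).comp f⟩

end Pool.Agent.AEC.H62
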